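import Pool.Agent.Helper94.PQ.Stmts

/-! # Row DYAD of the project PQ (MP_c63a07_nt) -/

set_option autoImplicit false

open NumberField
open scoped Classical

namespace PQ

open BKA Pool.Agent.Helper13.Swan

theorem dyad_units_cast {Ω : Type} [Field Ω] (v : ℤˣ) (n : ℤ) :
    (((v ^ n : ℤˣ) : ℤ) : Ω) = ((v : ℤ) : Ω) ^ n := by
  have h1 : (((v ^ n : ℤˣ) : ℤ) : Ω)
      = ((Units.map (Int.castRingHom Ω : ℤ →* Ω) (v ^ n) : Ωˣ) : Ω) := rfl
  rw [h1, map_zpow, Units.val_zpow_eq_zpow_val]
  rfl

theorem dyad_ex_zpow (k n : ℤ) : ex k ^ n = ex (n * k) := by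
  obtain ⟨m, rfl | rfl⟩ := n.eq_nat_or_neg
  · rw [zpow_natCast, ex_pow]
  · rw [zpow_neg, zpow_natCast, ex_pow, ← ex_neg, neg_mul]

theorem dyad_avg {P : Type} [Group P] {k V : Type} [Field k] [CharZero k] [AddCommGroup V]
    [Module k V] [FiniteDimensional k V] (r : P →* (V →ₗ[k] V)) (R : Subgroup P) [Fintype R]
    (W : Submodule k V) (hW : ∀ x, x ∈ W ↔ ∀ g ∈ R, r g x = x) :
    ∑ g : R, LinearMap.trace k V (r g) = (Nat.card R : k) * (Module.finrank k W : k) := by
  have hc : (Fintype.card R : k) ≠ 0 := by exact_mod_cast Fintype.card_ne_zero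
  have hp : LinearMap.IsProj W ((Fintype.card R : k)⁻¹ • ∑ g : R, r g) := by
    constructor
    · intro x
      rw [hW]
      intro h hh
      rw [LinearMap.smul_apply, map_smul, LinearMap.sum_apply, map_sum]
      congr 1
      have e : ∀ g : R, r h (r g x) = r ((⟨h, hh⟩ * g : R) : P) x := by
        intro g
        rw [Subgroup.coe_mul, map_mul]
        rfl
      rw [Finset.sum_congr rfl (fun g _ => e g)]
      exact Fintype.sum_equiv (Equiv.mulLeft (⟨h, hh⟩ : R)) _ (fun g : R => r g x) (fun g => rfl)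
    · intro x hx
      rw [LinearMap.smul_apply, LinearMap.sum_apply]
      have e : ∀ g : R, r g x = x := fun g => (hW x).1 hx g g.2
      rw [Finset.sum_congr rfl (fun g _ => e g), Finset.sum_const, Finset.card_univ,
        ← Nat.cast_smul_eq_nsmul k, smul_smul, inv_mul_cancel₀ hc, one_smul]
  have h1 := hp.trace
  rw [map_smul, map_sum, smul_eq_mul] at h1
  rw [Nat.card_eq_fintype_card, ← h1, mul_inv_cancel_left₀ hc]

theorem dyad_fxn_one {S : Type} [Group S] (H : Subgroup S) : fxn H (1 : S) = H.index := by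
  rw [fxn, Subgroup.index]
  exact Nat.card_congr (Equiv.subtypeUnivEquiv (fun x => one_smul _ x))

theorem st_DYAD (h1 : ST_DISC2) (h2 : ST_RSK) (h3 : ST_DET) : ST_DYAD := by
  intro Ω P _ _ _ _ _ _ w π hB hP k V _ _ _ _ _ B hBs r hr htr
  obtain ⟨c, hc⟩ := h2 P hP k V B hBs r hr htr
  have hdet := h3 P k V B hBs r hr c hc
  choose Dh hD0 hDs hDw using fun H : Subgroup P => h1 Ω P w π hB H
  let _ : Fintype (Subgroup P) := Fintype.ofFinite _
  refine ⟨∏ H : Subgroup P, Dh H ^ c H, ?_, ?_, ?_⟩
  · rw [Finset.prod_ne_zero_iff]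
    exact fun H _ => zpow_ne_zero _ (hD0 H)
  · intro s
    have e1 : s • (∏ H : Subgroup P, Dh H ^ c H)
        = (((∏ H : Subgroup P, sgn H s ^ c H : ℤˣ) : ℤ) : Ω) * ∏ H : Subgroup P, Dh H ^ c H := by
      have e2 : s • (∏ H : Subgroup P, Dh H ^ c H)
          = MulSemiringAction.toRingHom P Ω s (∏ H : Subgroup P, Dh H ^ c H) := rfl
      rw [e2, map_prod, Units.coe_prod, Int.cast_prod, ← Finset.prod_mul_distrib]
      refine Finset.prod_congr rfl fun H _ => ?_
      rw [map_zpow₀, dyad_units_cast, ← mul_zpow]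
      congr 1
      exact hDs H s
    have e3 := hdet s
    rw [finprod_eq_prod_of_fintype] at e3
    rcases Int.units_eq_one_or (∏ H : Subgroup P, sgn H s ^ c H) with h | h
    · left
      rw [h] at e1 e3
      refine ⟨by rw [e3]; simp, by rw [e1]; simp⟩
    · right
      rw [h] at e1 e3
      refine ⟨by rw [e3]; simp, by rw [e1]; simp⟩
  · -- the valuation
    obtain ⟨L, hL⟩ := hB.exists_Rk_bot
    have hLi : ∀ i, L ≤ i → Rk hB i = ⊥ := fun i hi => le_bot_iff.1 (hL ▸ Rk_antitone hB hi)
    have hzero : ∀ (H : Subgroup P) (i : ℕ), L ≤ i →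
        ∑ g : Rk hB i, ((H.index : ℤ) - (fxn H (g : P) : ℤ)) = 0 := by
      intro H i hi
      refine Finset.sum_eq_zero fun g _ => ?_
      have hle : Rk hB i ≤ ⊥ := (hLi i hi).le
      have hg : (g : P) = 1 := Subgroup.mem_bot.1 (hle g.2)
      rw [hg, dyad_fxn_one, sub_self]
    have hS : ∀ H : Subgroup P, (∑ᶠ i : ℕ, ∑ g : Rk hB i, ((H.index : ℤ) - (fxn H (g : P) : ℤ)))
        = ∑ i ∈ Finset.range L, ∑ g : Rk hB i, ((H.index : ℤ) - (fxn H (g : P) : ℤ)) := by
      intro H
      refine finsum_eq_sum_of_support_subset _ fun i hi => ?_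
      rw [Finset.coe_range, Set.mem_Iio]
      by_contra hne
      exact hi (hzero H i (not_lt.1 hne))
    have hterm : ∀ (i : ℕ) (W : Submodule k V), (∀ x, x ∈ W ↔ ∀ g ∈ Rk hB i, r g x = x) →
        (Nat.card (Rk hB i) : ℤ) * ((Module.finrank k V : ℤ) - Module.finrank k W)
          = ∑ H : Subgroup P, c H * ∑ g : Rk hB i, ((H.index : ℤ) - (fxn H (g : P) : ℤ)) := by
      intro i W hW
      have hcast : Function.Injective (fun z : ℤ => (z : k)) := Int.cast_injective
      apply hcast
      have htr1 : ∀ g : P, ∑ H : Subgroup P, (c H : k) * (fxn H g : k)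
          = LinearMap.trace k V (r g) := by
        intro g
        refine Eq.trans ?_ (hc g).symm
        rw [finsum_eq_sum_of_fintype]
      have hone : ∑ H : Subgroup P, (c H : k) * (H.index : k) = (Module.finrank k V : k) := by
        have := htr1 1
        simp only [dyad_fxn_one] at this
        rw [this, map_one]
        exact LinearMap.trace_one k V
      have havg := dyad_avg r (Rk hB i) W hW
      push_cast
      rw [mul_sub, ← havg]
      have e1 : ∑ H : Subgroup P, (c H : k) * ∑ g : Rk hB i, ((H.index : k) - (fxn H (g : P) : k))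
          = ∑ g : Rk hB i, ((Module.finrank k V : k) - LinearMap.trace k V (r g)) := by
        have e2 : ∀ g : Rk hB i, (Module.finrank k V : k) - LinearMap.trace k V (r g)
            = ∑ H : Subgroup P, (c H : k) * ((H.index : k) - (fxn H (g : P) : k)) := by
          intro g
          rw [← hone, ← htr1 g, ← Finset.sum_sub_distrib]
          refine Finset.sum_congr rfl fun H _ => ?_
          rw [mul_sub]
        rw [Finset.sum_congr rfl (fun g _ => e2 g), Finset.sum_comm]
        refine Finset.sum_congr rfl fun H _ => ?_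
        rw [Finset.mul_sum]
      rw [e1, Finset.sum_sub_distrib, Finset.sum_const, Finset.card_univ,
        ← Nat.card_eq_fintype_card, nsmul_eq_mul]
    have hw : w (∏ H : Subgroup P, Dh H ^ c H) ^ 2
        = ex (∑ H : Subgroup P, c H *
          ∑ᶠ i : ℕ, ∑ g : Rk hB i, ((H.index : ℤ) - (fxn H (g : P) : ℤ))) := by
      rw [map_prod, ← Finset.prod_pow, ← prod_ex]
      refine Finset.prod_congr rfl fun H _ => ?_
      rw [map_zpow₀, ← zpow_natCast, zpow_comm, zpow_natCast, hDw H, dyad_ex_zpow]
    rw [hw]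
    congr 1
    have hfin : (∑ᶠ i : ℕ, (Nat.card (Rk hB i) : ℤ) * ((Module.finrank k V : ℤ) -
        Module.finrank k ({ carrier := {x | ∀ g ∈ Rk hB i, r g x = x}
                            zero_mem' := fun _ _ => map_zero _
                            add_mem' := fun {x y} hx hy g hg => by
                              rw [map_add, hx g hg, hy g hg]
                            smul_mem' := fun a x hx g hg => by
                              rw [map_smul, hx g hg] } : Submodule k V)))
        = ∑ᶠ i : ℕ, ∑ H : Subgroup P, c H *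
          ∑ g : Rk hB i, ((H.index : ℤ) - (fxn H (g : P) : ℤ)) := by
      refine finsum_congr fun i => ?_
      exact hterm i _ (fun x => Iff.rfl)
    refine Eq.trans ?_ hfin.symm
    rw [finsum_eq_sum_of_support_subset (s := Finset.range L)]
    · rw [Finset.sum_comm]
      refine Finset.sum_congr rfl fun H _ => ?_
      rw [hS H, Finset.mul_sum]
    · intro i hi
      rw [Finset.coe_range, Set.mem_Iio]
      by_contra hne
      apply hi
      refine Finset.sum_eq_zero fun H _ => ?_
      rw [hzero H i (not_lt.1 hne), mul_zero]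

end PQ
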